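import Pool.Agent.H79.MC.Targets

/-!
Polynomial space algorithms for maximum cut: copy the current cut to the output.
-/

set_option autoImplicit false

namespace Pool.Agent.H74.MC

open Pool.Agent.H79.MC

theorem mod_inj {n i i' j : ℕ} (hi : i < n) (hi' : i' < n) (h : (i + j) % n = (i' + j) % n) :
    i = i' := by
  have h1 : i ≡ i' [MOD n] := Nat.ModEq.add_right_cancel' j h
  have h2 := h1
  unfold Nat.ModEq at h2
  rwa [Nat.mod_eq_of_lt hi, Nat.mod_eq_of_lt hi'] at h2

theorem pf_cpy (hFR : T_FR) (hMXW : T_MXW) : T_CPY := by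
  intro W s n j h0 h4 hj hW hx
  have hfr := hFR W 8 (.reg 0) (.put 1 (.mod (.add (.reg 8) (.reg 4)) (.reg 0)) (.get 2 (.reg 8)))
    s 1 n (fun k s' => Agree {8} {1} s s' ∧ s'.r 8 = k ∧ ∀ i < k, s'.a 1 ((i + j) % n) = s.a 2 i)
    ?_ ?_ ?_
  · obtain ⟨t, s', hr, ht, hag, -, hc⟩ := hfr
    exact ⟨t, s', hr, by omega, hag, hc⟩
  · refine ⟨⟨?_, fun k hk => rfl⟩, ?_, fun i hi => absurd hi (by omega)⟩
    · intro i hi
      simp only [Finset.mem_singleton] at hi
      simp [St.setr, Function.update_of_ne hi]
    · simp [St.setr]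
  · intro k s' hk ⟨hag, h8, _⟩
    have h0' : s'.r 0 = n := by
      rw [hag.1 0 (by simp), h0]
    refine ⟨h8, h0', ?_⟩
    show s'.r 0 ≤ W
    omega
  · intro k s' hk ⟨hag, h8, hc⟩
    have h0' : s'.r 0 = n := by
      rw [hag.1 0 (by simp), h0]
    have h4' : s'.r 4 = j := by
      rw [hag.1 4 (by simp), h4]
    have ha2 : s'.a 2 = s.a 2 := hag.2 2 (by simp)
    have e1 : ev s' (.mod (.add (.reg 8) (.reg 4)) (.reg 0)) = (k + j) % n := by
      simp only [ev, h8, h4', h0']
    have e2 : ev s' (.get 2 (.reg 8)) = s.a 2 k := by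
      simp only [ev, h8, ha2]
    have m1 : mx s' (.mod (.add (.reg 8) (.reg 4)) (.reg 0)) ≤ W := by
      simp only [mx, ev, h8, h4', h0']
      omega
    have m2 : mx s' (.get 2 (.reg 8)) ≤ W := by
      have hk' := hx k hk
      simp only [mx, ev, h8, ha2]
      omega
    have hrun := Run.put (W := W) 1 _ _ s' m1 m2
    rw [e1, e2] at hrun
    refine ⟨1, _, hrun, le_refl _, h8, ⟨?_, ?_⟩, ?_, ?_⟩
    · intro i hi
      have hi2 := hi
      simp only [Finset.mem_singleton] at hi2
      simp only [St.setr, St.seta, Function.update_of_ne hi2]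
      exact hag.1 i hi
    · intro i hi
      have hi2 := hi
      simp only [Finset.mem_singleton] at hi2
      simp only [St.setr, St.seta, Function.update_of_ne hi2]
      exact hag.2 i hi
    · simp [St.setr]
    · intro i hi
      simp only [St.setr, St.seta, Function.update_self]
      by_cases hik : i = k
      · subst hik
        rw [Function.update_self]
      · have hne : (i + j) % n ≠ (k + j) % n := fun h => hik (mod_inj (by omega) hk h)
        rw [Function.update_of_ne hne]
        exact hc i (by omega)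

end Pool.Agent.H74.MC
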