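import Pool.Agent.H79.MC.Targets

/-!
Polynomial space algorithms for maximum cut: evaluation of the summands.
-/

set_option autoImplicit false

namespace Pool.Agent.H74.MC

open Pool.Agent.H79.MC

theorem ev_eqE (s : St) (e f : Exp) : ev s (eqE e f) = if ev s e = ev s f then 1 else 0 := by
  unfold eqE
  simp only [ev]
  split_ifs with h <;> omega

theorem mx_eqE {W : ℕ} (s : St) (e f : Exp) (h1 : mx s e ≤ W) (h2 : mx s f ≤ W)
    (he : ev s e ≤ W) (hf : ev s f ≤ W) (h0 : 1 ≤ W) : mx s (eqE e f) ≤ W := by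
  unfold eqE
  simp only [mx, ev]
  omega

theorem ev_adjE {n j i i' : ℕ} {A : ℕ → ℕ → ℕ} (s : St) (h0 : s.r 0 = n) (h4 : s.r 4 = j)
    (hadj : ∀ u < n, ∀ v < n, s.a 0 (u * n + v) = A u v) (hj : j < n)
    (h8 : s.r 8 = i) (h9 : s.r 9 = i') : ev s adjE = A ((i + j) % n) ((i' + j) % n) := by
  unfold adjE
  simp only [ev, h0, h4, h8, h9]
  have hn : 0 < n := by omega
  exact hadj _ (Nat.mod_lt _ hn) _ (Nat.mod_lt _ hn)

theorem mx_adjE {n j i i' W : ℕ} {A : ℕ → ℕ → ℕ} (s : St) (h0 : s.r 0 = n) (h4 : s.r 4 = j)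
    (hadj : ∀ u < n, ∀ v < n, s.a 0 (u * n + v) = A u v) (hj : j < n) (hi : i < n) (hi' : i' < n)
    (h8 : s.r 8 = i) (h9 : s.r 9 = i') (hA : ∀ u v, A u v ≤ 1) (hW : (n + 1) * (n + 1) ≤ W) :
    mx s adjE ≤ W := by
  have hn : 0 < n := by omega
  have e1 := ev_adjE s h0 h4 hadj hj h8 h9
  have e2 := hA ((i + j) % n) ((i' + j) % n)
  have h1 : (i + j) % n < n := Nat.mod_lt _ hn
  have h2 : (i' + j) % n < n := Nat.mod_lt _ hn
  have h3 : (i + j) % n * n + (i' + j) % n ≤ n * n := by nlinarith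
  have h4' : (i + j) % n * n ≤ n * n := by nlinarith
  have h5 : n * n + 2 * n + 1 ≤ W := by nlinarith
  unfold adjE at e1 ⊢
  simp only [mx, ev, h0, h4, h8, h9] at e1 ⊢
  rw [e1]
  simp only [max_le_iff]
  repeat' apply And.intro
  all_goals omega

theorem wS_le (a q g i : ℕ) : wS a q g i ≤ 2 * 2 ^ a := by
  unfold wS
  split_ifs <;> omega

theorem sS_le (a q g i : ℕ) : sS a q g i ≤ 1 := by
  unfold sS bSg bits
  split_ifs
  · omega
  · omega

theorem pf_evl (hMXW : T_MXW) : T_EVL := by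
  intro a q n A W j τ g s x hP hB hD hj h2 hx i hi i' hi' h8 h9
  have hm := hMXW.1
  obtain ⟨hn, hb, hA, hW⟩ := hP
  have hpw : 1 ≤ 2 ^ a := Nat.one_le_two_pow
  set P := 2 ^ a with hPd
  have hS : 1 ≤ (n + 1) * (n + 1) := by nlinarith
  have hW1 : (n + 1) * (n + 1) ≤ W := by nlinarith
  have hW2 : 2 * P + a + 4 ≤ W := by nlinarith
  have hW3 : 2 * n + 4 ≤ W := by nlinarith
  have e1 := ev_adjE s hB.r0 hD.r4 hB.adj hj h8 h9
  have m1 := mx_adjE s hB.r0 hD.r4 hB.adj hj hi hi' h8 h9 hA hW1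
  have a1 := hA ((i + j) % n) ((i' + j) % n)
  have g2 : ev s (.get 2 (.reg 8)) = x i := by
    simp only [ev, h8]
    exact h2 i hi
  have g2' : ev s (.get 2 (.reg 9)) = x i' := by
    simp only [ev, h9]
    exact h2 i' hi'
  have g5 : ev s (.get 5 (.reg 8)) = if 2 ^ a * q ≤ i then 1 else 0 := by
    simp only [ev, h8]
    exact hD.a5 i hi
  have g5' : ev s (.get 5 (.reg 9)) = if 2 ^ a * q ≤ i' then 1 else 0 := by
    simp only [ev, h9]
    exact hD.a5 i' hi'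
  have g6' : ev s (.get 6 (.reg 9)) = wS a q g i' := by
    simp only [ev, h9]
    exact hD.a6 i' hi'
  have g7' : ev s (.get 7 (.reg 9)) = sS a q g i' := by
    simp only [ev, h9]
    exact hD.a7 i' hi'
  have hxi := hx i hi
  have hxi' := hx i' hi'
  have hw := wS_le a q g i'
  have hs := sS_le a q g i'
  have b5 : (if 2 ^ a * q ≤ i then 1 else 0) ≤ 1 := by split_ifs <;> omega
  have b5' : (if 2 ^ a * q ≤ i' then 1 else 0) ≤ 1 := by split_ifs <;> omega
  have n2 : mx s (.get 2 (.reg 8)) ≤ W := by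
    have : mx s (.get 2 (.reg 8)) = max (s.r 8) (ev s (.get 2 (.reg 8))) := rfl
    rw [this, g2, h8]
    omega
  have n2' : mx s (.get 2 (.reg 9)) ≤ W := by
    have : mx s (.get 2 (.reg 9)) = max (s.r 9) (ev s (.get 2 (.reg 9))) := rfl
    rw [this, g2', h9]
    omega
  have n5 : mx s (.get 5 (.reg 8)) ≤ W := by
    have : mx s (.get 5 (.reg 8)) = max (s.r 8) (ev s (.get 5 (.reg 8))) := rfl
    rw [this, g5, h8]
    omega
  have n5' : mx s (.get 5 (.reg 9)) ≤ W := by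
    have : mx s (.get 5 (.reg 9)) = max (s.r 9) (ev s (.get 5 (.reg 9))) := rfl
    rw [this, g5', h9]
    omega
  have n6' : mx s (.get 6 (.reg 9)) ≤ W := by
    have : mx s (.get 6 (.reg 9)) = max (s.r 9) (ev s (.get 6 (.reg 9))) := rfl
    rw [this, g6', h9]
    omega
  have n7' : mx s (.get 7 (.reg 9)) ≤ W := by
    have : mx s (.get 7 (.reg 9)) = max (s.r 9) (ev s (.get 7 (.reg 9))) := rfl
    rw [this, g7', h9]
    omega
  have q1 : ev s (eqE (.get 2 (.reg 8)) (.get 2 (.reg 9))) = if x i = x i' then 1 else 0 := by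
    rw [ev_eqE, g2, g2']
  have q1' : mx s (eqE (.get 2 (.reg 8)) (.get 2 (.reg 9))) ≤ W :=
    mx_eqE s _ _ n2 n2' ((hm _ _).trans n2) ((hm _ _).trans n2') (by omega)
  have q2 : ev s (eqE (.get 2 (.reg 8)) (.get 7 (.reg 9))) = if x i = sS a q g i' then 1 else 0 := by
    rw [ev_eqE, g2, g7']
  have q2' : mx s (eqE (.get 2 (.reg 8)) (.get 7 (.reg 9))) ≤ W :=
    mx_eqE s _ _ n2 n7' ((hm _ _).trans n2) ((hm _ _).trans n7') (by omega)
  have c1 : (if x i = x i' then 1 else 0) ≤ 1 := by split_ifs <;> omega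
  have c2 : (if x i = sS a q g i' then 1 else 0) ≤ 1 := by split_ifs <;> omega
  refine ⟨⟨?_, ?_⟩, ?_, ?_⟩
  · show ev s adjE * ev s (eqE (.get 2 (.reg 8)) (.get 2 (.reg 9))) = _
    rw [e1, q1]
  · show max (max (mx s adjE) (mx s (eqE (.get 2 (.reg 8)) (.get 2 (.reg 9)))))
      (ev s adjE * ev s (eqE (.get 2 (.reg 8)) (.get 2 (.reg 9)))) ≤ W
    rw [e1, q1]
    have : A ((i + j) % n) ((i' + j) % n) * (if x i = x i' then 1 else 0) ≤ 1 * 1 :=
      Nat.mul_le_mul a1 c1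
    omega
  · show ev s (.get 5 (.reg 8)) * ev s adjE * (ev s (.get 5 (.reg 9)) *
      ev s (eqE (.get 2 (.reg 8)) (.get 2 (.reg 9))) + ev s (.get 6 (.reg 9)) *
        ev s (eqE (.get 2 (.reg 8)) (.get 7 (.reg 9)))) = _
    rw [e1, q1, q2, g5, g5', g6']
  · show max (max (max (max (mx s (.get 5 (.reg 8))) (mx s adjE)) (ev s (.get 5 (.reg 8)) *
        ev s adjE)) (max (max
          (max (max (mx s (.get 5 (.reg 9))) (mx s (eqE (.get 2 (.reg 8)) (.get 2 (.reg 9)))))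
            (ev s (.get 5 (.reg 9)) * ev s (eqE (.get 2 (.reg 8)) (.get 2 (.reg 9)))))
          (max (max (mx s (.get 6 (.reg 9))) (mx s (eqE (.get 2 (.reg 8)) (.get 7 (.reg 9)))))
            (ev s (.get 6 (.reg 9)) * ev s (eqE (.get 2 (.reg 8)) (.get 7 (.reg 9))))))
          (ev s (.get 5 (.reg 9)) * ev s (eqE (.get 2 (.reg 8)) (.get 2 (.reg 9))) +
            ev s (.get 6 (.reg 9)) * ev s (eqE (.get 2 (.reg 8)) (.get 7 (.reg 9))))))
      (ev s (.get 5 (.reg 8)) * ev s adjE * (ev s (.get 5 (.reg 9)) *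
      ev s (eqE (.get 2 (.reg 8)) (.get 2 (.reg 9))) + ev s (.get 6 (.reg 9)) *
        ev s (eqE (.get 2 (.reg 8)) (.get 7 (.reg 9))))) ≤ W
    rw [e1, q1, q2, g5, g5', g6']
    have t1 := Nat.mul_le_mul b5 a1
    have t2 := Nat.mul_le_mul b5' c1
    have t3 := Nat.mul_le_mul hw c2
    have t4 := Nat.mul_le_mul t1 (Nat.add_le_add t2 t3)
    simp only [max_le_iff]
    repeat' apply And.intro
    all_goals omega

end Pool.Agent.H74.MC
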