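import Pool.Agent.H79.MC.Targets

/-!
Polynomial space algorithms for maximum cut: the inner loop.
-/

set_option autoImplicit false

namespace Pool.Agent.H74.MC

open Pool.Agent.H79.MC

theorem ex_seq {W : ℕ} {p q : Prog} {s : St} {T₁ T₂ : ℕ} {Q₁ Q₂ : St → Prop}
    (h1 : Ex W p s T₁ Q₁) (h2 : ∀ s', Q₁ s' → Ex W q s' T₂ Q₂) :
    Ex W (.seq p q) s (T₁ + T₂) Q₂ := by
  obtain ⟨t, s', hr, ht, hq⟩ := h1
  obtain ⟨t', s'', hr', ht', hq'⟩ := h2 s' hq
  exact ⟨t + t', s'', .seq hr hr', by omega, hq'⟩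

theorem ex_set {W i : ℕ} {e : Exp} {s : St} (h : mx s e ≤ W) :
    Ex W (.set i e) s 1 fun s' => s' = s.setr i (ev s e) :=
  ⟨1, _, .set i e s h, le_refl _, rfl⟩

theorem ex_mono {W : ℕ} {p : Prog} {s : St} {T T' : ℕ} {Q Q' : St → Prop}
    (h : Ex W p s T Q) (hT : T ≤ T') (hQ : ∀ s', Q s' → Q' s') : Ex W p s T' Q' := by
  obtain ⟨t, s', hr, ht, hq⟩ := h
  exact ⟨t, s', hr, by omega, hQ s' hq⟩

theorem base_agree {a q n : ℕ} {A : ℕ → ℕ → ℕ} {s s' : St} {R K : Finset ℕ}
    (h : Agree R K s s') (hR : ∀ i < 4, i ∉ R) (hK : 0 ∉ K) (hB : Base a q n A s) :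
    Base a q n A s' := by
  refine ⟨?_, ?_, ?_, ?_, ?_⟩
  · rw [h.1 0 (hR 0 (by omega))]; exact hB.r0
  · rw [h.1 1 (hR 1 (by omega))]; exact hB.r1
  · rw [h.1 2 (hR 2 (by omega))]; exact hB.r2
  · rw [h.1 3 (hR 3 (by omega))]; exact hB.r3
  · rw [h.2 0 hK]; exact hB.adj

theorem dec_agree {a q n j τ g : ℕ} {s s' : St} {R K : Finset ℕ}
    (h : Agree R K s s') (h4 : 4 ∉ R) (h5 : 5 ∉ R) (k4 : 4 ∉ K) (k5 : 5 ∉ K) (k6 : 6 ∉ K)
    (k7 : 7 ∉ K) (hD : Dec a q n j τ g s) : Dec a q n j τ g s' := by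
  refine ⟨?_, ?_, ?_, ?_, ?_, ?_⟩
  · rw [h.1 4 h4]; exact hD.r4
  · rw [h.1 5 h5]; exact hD.r5
  · rw [h.2 4 k4]; exact hD.a4
  · rw [h.2 5 k5]; exact hD.a5
  · rw [h.2 6 k6]; exact hD.a6
  · rw [h.2 7 k7]; exact hD.a7

theorem out_agree {n : ℕ} {A : ℕ → ℕ → ℕ} {s s' : St} {R K : Finset ℕ}
    (h : Agree R K s s') (h14 : 14 ∉ R) (k1 : 1 ∉ K) (hO : Out n A s) : Out n A s' := by
  unfold Out at *
  rw [h.1 14 h14, h.2 1 k1]
  exact hO

theorem agree_setr (s : St) (i v : ℕ) : Agree {i} ∅ s (s.setr i v) := by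
  refine ⟨fun k hk => ?_, fun k _ => rfl⟩
  simp only [Finset.mem_singleton] at hk
  simp [St.setr, Function.update_of_ne hk]

theorem agree_trans {R K R' K' : Finset ℕ} {s s' s'' : St} (h : Agree R K s s')
    (h' : Agree R' K' s' s'') : Agree (R ∪ R') (K ∪ K') s s'' := by
  refine ⟨fun i hi => ?_, fun k hk => ?_⟩
  · rw [Finset.mem_union, not_or] at hi
    rw [h'.1 i hi.2, h.1 i hi.1]
  · rw [Finset.mem_union, not_or] at hk
    rw [h'.2 k hk.2, h.2 k hk.1]

open Classical in
/-- the number of steps for one high part -/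
noncomputable def cst (a q n : ℕ) (A : ℕ → ℕ → ℕ) (j g τ y : ℕ) : ℕ :=
  if Kept a q n A j g τ y then 2 ^ (2 ^ a * q) else 1

theorem cst_pos (a q n : ℕ) (A : ℕ → ℕ → ℕ) (j g τ y : ℕ) : 1 ≤ cst a q n A j g τ y := by
  unfold cst
  split_ifs
  · exact Nat.one_le_two_pow
  · exact le_refl _

theorem cost_eq (a q n : ℕ) (A : ℕ → ℕ → ℕ) (j g τ : ℕ) : cost a q n A j g τ =
    ∑ y ∈ Finset.range (2 ^ (n - 2 ^ a * q)), cst a q n A j g τ y := rfl

/-- the invariant -/
def Inv (a q n : ℕ) (A : ℕ → ℕ → ℕ) (j g τ : ℕ) (s : St) (k : ℕ) (s' : St) : Prop :=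
  Base a q n A s' ∧ Dec a q n j τ g s' ∧ Out n A s' ∧ s'.r 14 ≤ s.r 14 ∧ s'.r 6 = s.r 6 ∧
  s'.r 7 ≤ 1 ∧ ∃ y z, z < 2 ^ (2 ^ a * q) ∧
    (∑ y' ∈ Finset.range y, cst a q n A j g τ y') + z = k ∧ (z = 0 ∨ Kept a q n A j g τ y) ∧
    (∀ X < y * 2 ^ (2 ^ a * q) + z, Kept a q n A j g τ (X / 2 ^ (2 ^ a * q)) →
      s'.r 14 ≤ valF n A j (bits X)) ∧
    (s'.r 7 ≠ 0 → Inn a q n (y * 2 ^ (2 ^ a * q) + z) k s') ∧
    (s'.r 7 = 0 → 2 ^ n ≤ y * 2 ^ (2 ^ a * q) + z ∨ 2 ^ (n - 2 ^ a * q + 1) ≤ k)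

theorem inv_step (hBDY : T_BDY) {a q n : ℕ} {A : ℕ → ℕ → ℕ} {W j τ g : ℕ} {s : St}
    (hP : Par a q n A W) (hj : j < n) (hτ : τ ≤ 2 * 2 ^ a * (n * n)) (h14 : s.r 14 ≤ n * n + 1)
    {k : ℕ} {s' : St} (hI : Inv a q n A j g τ s k s') (h7 : s'.r 7 ≠ 0) :
    Ex W bodyP s' (6 * n * n + 30 * n + 60) (Inv a q n A j g τ s (k + 1)) := by
  obtain ⟨hB, hD, hO, hr14, hr6, -, y, z, hz, hk, hzk, hval, hinn, -⟩ := hI
  set B := 2 ^ (2 ^ a * q) with hBd
  have hBpos : 0 < B := by positivity
  have hin := hinn h7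
  have hbd := hBDY a q n A W j τ g (y * B + z) k s' hP hB hD hj hτ hin hO (by omega)
  refine ex_mono hbd (le_refl _) ?_
  rintro s'' ⟨hB', hD', hO', hr14', hr6', hr7', X', hX1, hX2, hX3, hX4⟩
  have hmod : (y * B + z) % B = z := by
    rw [Nat.add_comm, Nat.add_mul_mod_self_right, Nat.mod_eq_of_lt hz]
  have hend : s''.r 7 = 0 → 2 ^ n ≤ X' ∨ 2 ^ (n - 2 ^ a * q + 1) ≤ k + 1 := by
    intro h
    by_contra hc
    push Not at hc
    exact (hX3.mpr hc) h
  -- the case of a cut which is kept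
  have hkeep : Kept a q n A j g τ y →
      ((y * B + z) % B ≠ 0 ∨ testF a q n A j g (bits (y * B + z)) ≤ τ) →
      Inv a q n A j g τ s (k + 1) s'' := by
    intro hKy hcond
    obtain ⟨hX', hv⟩ := hX1 hcond
    refine ⟨hB', hD', hO', by omega, by omega, hr7', ?_⟩
    have hval' : ∀ X < y * B + z + 1, Kept a q n A j g τ (X / B) →
        s''.r 14 ≤ valF n A j (bits X) := by
      intro X hX hKX
      rcases Nat.lt_succ_iff_lt_or_eq.mp hX with h | h
      · exact le_trans hr14' (hval X h hKX)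
      · rw [h]; exact hv
    by_cases hz1 : z + 1 < B
    · refine ⟨y, z + 1, hz1, by omega, Or.inr hKy, hval', ?_, ?_⟩
      · intro h
        have := hX4 h
        rw [hX'] at this
        exact this
      · intro h
        have := hend h
        rw [hX'] at this
        exact this
    · have hzB : z + 1 = B := by omega
      have hXy : X' = (y + 1) * B + 0 := by
        rw [hX']
        rw [Nat.add_mul]
        omega
      have hXy' : y * B + z + 1 = (y + 1) * B + 0 := by rw [← hX', hXy]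
      refine ⟨y + 1, 0, hBpos, ?_, Or.inl rfl, ?_, ?_, ?_⟩
      · rw [Finset.sum_range_succ]
        have : cst a q n A j g τ y = B := by
          unfold cst
          rw [if_pos hKy]
        omega
      · rw [← hXy']
        exact hval'
      · intro h
        rw [← hXy]
        exact hX4 h
      · intro h
        rw [← hXy]
        exact hend h
  by_cases hz0 : z = 0
  · subst hz0
    have hK : Kept a q n A j g τ y ↔ testF a q n A j g (bits (y * B + 0)) ≤ τ := Iff.rfl
    by_cases hKy : Kept a q n A j g τ y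
    · exact hkeep hKy (Or.inr (hK.mp hKy))
    · have hn : ¬ ((y * B + 0) % B ≠ 0 ∨ testF a q n A j g (bits (y * B + 0)) ≤ τ) := by
        rw [hmod]
        rintro (h | h)
        · exact h rfl
        · exact hKy (hK.mpr h)
      have hX' := hX2 hn
      have hXy : X' = (y + 1) * B + 0 := by
        rw [hX', Nat.add_mul]
        omega
      refine ⟨hB', hD', hO', by omega, by omega, hr7', y + 1, 0, hBpos, ?_, Or.inl rfl, ?_, ?_, ?_⟩
      · rw [Finset.sum_range_succ]
        have : cst a q n A j g τ y = 1 := by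
          unfold cst
          rw [if_neg hKy]
        omega
      · intro X hX hKX
        by_cases h : X < y * B + 0
        · exact le_trans hr14' (hval X h hKX)
        · exfalso
          apply hKy
          have : X / B = y := by
            have hX2 : X < (y + 1) * B + 0 := hX
            have h3 : (y + 1) * B = y * B + B := by ring
            rw [Nat.div_eq_iff hBpos]
            constructor <;> omega
          rwa [this] at hKX
      · intro h
        rw [← hXy]
        exact hX4 h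
      · intro h
        rw [← hXy]
        exact hend h
  · have hKy : Kept a q n A j g τ y := by
      rcases hzk with h | h
      · exact absurd h hz0
      · exact h
    exact hkeep hKy (Or.inl (by rw [hmod]; exact hz0))

theorem pf_inr (hBDY : T_BDY) (hZER : T_ZER) (hWR : T_WR) : T_INR := by
  intro a q n A W j τ g s hP hB hD hj hτ hO h14
  have hn := hP.hn
  have hWb : 2 * n + 4 ≤ W := by
    have h1 := hP.hW
    have h2 : 1 ≤ 2 ^ a := Nat.one_le_two_pow
    nlinarith
  set B := 2 ^ (2 ^ a * q) with hBd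
  have hBpos : 0 < B := by positivity
  -- initialisation
  have z1 := hZER W 2 (.reg 0) s n (by omega) (fun s' hs' => by
    have : s'.r 0 = n := by rw [hs'.1 0 (by simp)]; exact hB.r0
    exact ⟨this, by show s'.r 0 ≤ W; omega⟩)
  have key : Ex W innerP s ((3 * n + 2) + ((3 * (n + 1) + 2) + (1 + (1 +
      (2 ^ (n - 2 ^ a * q + 1) * (6 * n * n + 30 * n + 60 + 1) + 1)))))
      fun s' => (∃ k ≤ 2 ^ (n - 2 ^ a * q + 1), Inv a q n A j g τ s k s') ∧
        ev s' (.reg 7) = 0 := by
    refine ex_seq z1 ?_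
    rintro s1 ⟨g1, x1⟩
    have z2 := hZER W 3 (.add (.reg 0) (.lit 1)) s1 (n + 1) (by omega) (fun s' hs' => by
      have : s'.r 0 = n := by rw [hs'.1 0 (by simp), g1.1 0 (by simp)]; exact hB.r0
      refine ⟨by show s'.r 0 + 1 = n + 1; rw [this], ?_⟩
      show max (max (s'.r 0) 1) (s'.r 0 + 1) ≤ W
      omega)
    refine ex_seq z2 ?_
    rintro s2 ⟨g2, x2⟩
    refine ex_seq (ex_set (by show 1 ≤ W; omega)) ?_
    rintro s3 rfl
    refine ex_seq (ex_set (by show 1 ≤ W; omega)) ?_
    rintro s4 rfl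
    have g3 := agree_setr s2 15 1
    have g4 := agree_setr (s2.setr 15 1) 7 1
    have g5 := agree_trans g1 (agree_trans g2 (agree_trans g3 g4))
    set s4 : St := (s2.setr 15 1).setr 7 1 with hs4
    have hB4 : Base a q n A s4 := base_agree g5 (by decide) (by decide) hB
    have hD4 : Dec a q n j τ g s4 :=
      dec_agree g5 (by decide) (by decide) (by decide) (by decide) (by decide) (by decide) hD
    have hO4 : Out n A s4 := out_agree g5 (by decide) (by decide) hO
    have h144 : s4.r 14 = s.r 14 := g5.1 14 (by decide)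
    have h64 : s4.r 6 = s.r 6 := g5.1 6 (by decide)
    have h74 : s4.r 7 = 1 := by simp [hs4, St.setr]
    have h154 : s4.r 15 = 1 := by simp [hs4, St.setr]
    have h24 : s4.a 2 = s1.a 2 := g2.2 2 (by decide)
    have h34 : s4.a 3 = s2.a 3 := rfl
    have hbits : ∀ i, bits 0 i = 0 := by
      intro i
      simp [bits]
    refine hWR W (.reg 7) bodyP s4 (6 * n * n + 30 * n + 60) (2 ^ (n - 2 ^ a * q + 1))
      (Inv a q n A j g τ s) ?_ ?_ ?_
    · refine ⟨hB4, hD4, hO4, by omega, h64, by omega, 0, 0, hBpos, by simp, Or.inl rfl, ?_, ?_, ?_⟩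
      · intro X hX
        omega
      · intro _
        refine ⟨?_, ?_, ?_, ?_, ?_, ?_⟩
        · rw [Nat.zero_mul]
          positivity
        · positivity
        · intro i hi
          rw [Nat.zero_mul, hbits, h24]
          exact x1 i hi
        · intro i hi
          rw [hbits, h34]
          exact x2 i (by omega)
        · rw [h154, Nat.zero_mul, Nat.zero_mod]
          simp
        · omega
      · intro h
        omega
    · intro k s' hI
      obtain ⟨-, -, -, -, -, h7, y, z, -, -, -, -, hinn, -⟩ := hI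
      refine ⟨?_, ?_⟩
      · show s'.r 7 ≤ W
        omega
      · intro h
        exact (hinn h).hc
    · intro k s' hI h7
      exact inv_step hBDY hP hj hτ h14 hI h7
  refine ex_mono key ?_ ?_
  · have : 2 ^ (n - 2 ^ a * q + 1) * (6 * n * n + 30 * n + 60 + 1) =
      2 ^ (n - 2 ^ a * q + 1) * (6 * n * n + 30 * n + 61) := rfl
    omega
  · rintro s' ⟨⟨k, hk, hI⟩, h7⟩
    obtain ⟨hB', hD', hO', hr14, hr6, -, y, z, hz, hks, hzk, hval, -, hend⟩ := hI
    refine ⟨hB', hD', hO', hr14, hr6, ?_⟩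
    intro hcost X hX hKX
    have hXle : 2 ^ n ≤ y * 2 ^ (2 ^ a * q) + z := by
      rcases hend h7 with h | h
      · exact h
      · by_contra hc
        push Not at hc
        have hpow : 2 ^ n = 2 ^ (n - 2 ^ a * q) * 2 ^ (2 ^ a * q) := by
          rw [← pow_add, Nat.sub_add_cancel hP.hb]
        have hy : y < 2 ^ (n - 2 ^ a * q) := by
          rw [hpow] at hc
          have h1 : y * 2 ^ (2 ^ a * q) < 2 ^ (n - 2 ^ a * q) * 2 ^ (2 ^ a * q) := by omega
          exact Nat.lt_of_mul_lt_mul_right h1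
        have h2 : z < cst a q n A j g τ y := by
          rcases hzk with h0 | h0
          · have := cst_pos a q n A j g τ y
            omega
          · unfold cst
            rw [if_pos h0]
            exact hz
        have h3 : (∑ y' ∈ Finset.range (y + 1), cst a q n A j g τ y') ≤
            cost a q n A j g τ := by
          rw [cost_eq]
          apply Finset.sum_le_sum_of_subset
          intro t ht
          rw [Finset.mem_range] at ht ⊢
          omega
        rw [Finset.sum_range_succ] at h3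
        omega
    exact hval X (by omega) hKX

end Pool.Agent.H74.MC
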