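import Pool.Agent.H96.MC.Targets4

/-!
[LCE] cell patterns of the families of a scheme (MP_5da387_pr).
-/

namespace Pool.Agent.H74.MC

open Classical MeasureTheory ProbabilityTheory Pool.Agent.H96.MC

noncomputable section

variable {d q : ℕ}

/-- the cell of a point -/
def cel (h : ℝ) (x : Sp d) : Cell d := fun l => ⌊x l / h⌋

lemma mem_hcell {h : ℝ} (hh : 0 < h) (x : Sp d) (v : Cell d) : x ∈ hcell h v ↔ cel h x = v := by
  simp only [hcell, Set.mem_setOf_eq]
  constructor
  · intro H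
    funext l
    simp only [cel]
    rw [Int.floor_eq_iff, le_div_iff₀ hh, div_lt_iff₀ hh]
    constructor
    · linarith [(H l).1]
    · linarith [(H l).2]
  · rintro rfl l
    simp only [cel]
    have h1 := Int.floor_le (x l / h)
    have h2 := Int.lt_floor_add_one (x l / h)
    rw [le_div_iff₀ hh] at h1
    rw [div_lt_iff₀ hh] at h2
    constructor
    · linarith
    · linarith

lemma measurable_coord (l : Fin d) : Measurable (fun x : Sp d => x l) := by
  have : Continuous (fun x : Sp d => x l) := by fun_prop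
  exact this.measurable

lemma hcell_meas (h : ℝ) (v : Cell d) : MeasurableSet (hcell (d := d) h v) := by
  have : hcell (d := d) h v = ⋂ l, ({x : Sp d | h * (v l : ℝ) ≤ x l} ∩ {x : Sp d | x l < h * ((v l : ℝ) + 1)}) := by
    ext x
    simp [hcell]
  rw [this]
  refine MeasurableSet.iInter fun l => ?_
  exact (measurableSet_le measurable_const (measurable_coord l)).inter
    (measurableSet_lt (measurable_coord l) measurable_const)

lemma hcell_bdd (h : ℝ) (v : Cell d) : Bornology.IsBounded (hcell (d := d) h v) := by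
  have h1 : Bornology.IsBounded
      (Set.pi Set.univ (fun l : Fin d => Set.Icc (h * (v l : ℝ)) (h * ((v l : ℝ) + 1)))) :=
    Bornology.IsBounded.pi fun l => Metric.isBounded_Icc _ _
  have h2 := (PiLp.lipschitzWith_toLp 2 (fun _ : Fin d => ℝ)).isBounded_image h1
  refine h2.subset ?_
  intro x hx
  refine ⟨fun l => x l, ?_, ?_⟩
  · intro l _
    exact ⟨(hx l).1, (hx l).2.le⟩
  · rfl

lemma ae_fin {V : Finset (Fin q → ℕ)} {lam : Fin q → ℝ} (S : Scheme V lam d) (h : ℝ) :
    ∀ᵐ ω ∂S.P, ∀ p : CC d q, (S.Pi p.2 ω ∩ hcell h p.1).Finite := by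
  rw [ae_all_iff]
  intro p
  obtain ⟨-, h2⟩ := S.poisson.2 1 (fun _ => p.2) (fun _ => hcell h p.1)
    (fun _ => hcell_meas h p.1) (fun _ => hcell_bdd h p.1) (fun j j' hj => absurd (Subsingleton.elim j j') hj)
  have h3 := h2 0
  have hm : Measurable (fun ω => (S.Pi p.2 ω ∩ hcell h p.1).encard) :=
    S.poisson.1 p.2 _ (hcell_meas h p.1)
  have h4 : S.P.map (fun ω => (S.Pi p.2 ω ∩ hcell h p.1).encard) {⊤} = 0 := by
    rw [h3, Measure.map_apply (by fun_prop) (measurableSet_singleton _)]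
    have : (fun m : ℕ => (m : ℕ∞)) ⁻¹' {⊤} = ∅ := by
      ext m
      simp
    rw [this]
    simp
  rw [Measure.map_apply hm (measurableSet_singleton _)] at h4
  have h5 : ∀ᵐ ω ∂S.P, ω ∉ (fun ω => (S.Pi p.2 ω ∩ hcell h p.1).encard) ⁻¹' {⊤} :=
    measure_eq_zero_iff_ae_notMem.1 h4
  filter_upwards [h5] with ω hω
  simp only [Set.mem_preimage, Set.mem_singleton_iff] at hω
  exact Set.encard_ne_top_iff.1 hω

/-- pattern of a finite set -/
def pat (Q : Fin q → Set (Sp d)) (h : ℝ) (F : Finset (Sp d)) : Pat d q :=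
  ∑ x ∈ F, ∑ i : Fin q, if x ∈ Q i then Finsupp.single (cel h x, i) 1 else 0

lemma pat_apply (Q : Fin q → Set (Sp d)) (h : ℝ) (F : Finset (Sp d)) (p : CC d q) :
    pat Q h F p = (F.filter (fun x => x ∈ Q p.2 ∧ cel h x = p.1)).card := by
  rw [pat, Finsupp.finsetSum_apply, Finset.card_filter]
  refine Finset.sum_congr rfl fun x _ => ?_
  rw [Finsupp.finsetSum_apply]
  obtain ⟨v, i⟩ := p
  rw [Finset.sum_eq_single i]
  · by_cases h1 : x ∈ Q i
    · by_cases h2 : cel h x = v
      · simp [h1, h2]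
      · have : (cel h x, i) ≠ (v, i) := fun h' => h2 (congrArg Prod.fst h')
        simp [h1, h2]
    · simp [h1]
  · intro j _ hj
    by_cases h1 : x ∈ Q j
    · simp [h1, hj]
    · simp [h1]
  · intro h'
    exact absurd (Finset.mem_univ _) h'

lemma pat_tot (Q : Fin q → Set (Sp d)) (h : ℝ) (F : Finset (Sp d)) :
    tot (pat Q h F) = ftype Q F := by
  have h1 : tot (pat Q h F) = ∑ x ∈ F, ∑ i : Fin q, if x ∈ Q i then Pi.single i 1 else 0 := by
    change totHom d q (pat Q h F) = _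
    rw [pat, map_sum]
    refine Finset.sum_congr rfl fun x _ => ?_
    rw [map_sum]
    refine Finset.sum_congr rfl fun i _ => ?_
    split_ifs
    · exact tot_single _ _
    · exact tot_zero (d := d)
  rw [h1]
  funext i
  have h2 : ((F : Set (Sp d)) ∩ Q i) = ((F.filter (fun x => x ∈ Q i) : Finset (Sp d)) : Set (Sp d)) := by
    ext x
    simp
  rw [ftype, h2, Set.ncard_coe_finset, Finset.card_filter, Finset.sum_apply]
  refine Finset.sum_congr rfl fun x _ => ?_
  rw [Finset.sum_apply, Finset.sum_eq_single i]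
  · split_ifs <;> simp
  · intro j _ hj
    split_ifs
    · simp [hj.symm]
    · rfl
  · intro h'
    exact absurd (Finset.mem_univ _) h'

lemma nrm_cel {h : ℝ} (hh : 0 < h) (x y : Sp d) : nrm (cel h x - cel h y) ≤ ‖x - y‖ / h + d := by
  set w : Sp d := WithLp.toLp 2 (fun l => (x l / h - ⌊x l / h⌋) - (y l / h - ⌊y l / h⌋)) with hw
  have h1 : (WithLp.toLp 2 (fun i => (((cel h x - cel h y) i : ℤ) : ℝ)) : Sp d) = h⁻¹ • (x - y) - w := by
    ext l
    simp only [hw, cel, Pi.sub_apply, PiLp.sub_apply, PiLp.smul_apply, smul_eq_mul]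
    push_cast
    field_simp
    ring
  have h2 : ‖w‖ ≤ d := by
    rw [EuclideanSpace.norm_eq]
    have h3 : ∑ i, ‖w i‖ ^ 2 ≤ (d : ℝ) ^ 2 := by
      calc ∑ i, ‖w i‖ ^ 2 ≤ ∑ _i : Fin d, (1 : ℝ) := by
            apply Finset.sum_le_sum
            intro i _
            have h4 : ‖w i‖ ≤ 1 := by
              simp only [hw, Real.norm_eq_abs]
              have a1 := Int.floor_le (x i / h)
              have a2 := Int.lt_floor_add_one (x i / h)
              have a3 := Int.floor_le (y i / h)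
              have a4 := Int.lt_floor_add_one (y i / h)
              rw [abs_le]
              constructor
              · linarith
              · linarith
            calc ‖w i‖ ^ 2 ≤ 1 ^ 2 := pow_le_pow_left₀ (norm_nonneg _) h4 2
              _ = 1 := by norm_num
        _ = d := by simp
        _ ≤ (d : ℝ) ^ 2 := by exact_mod_cast Nat.le_self_pow (by norm_num) d
    calc Real.sqrt (∑ i, ‖w i‖ ^ 2) ≤ Real.sqrt ((d : ℝ) ^ 2) := Real.sqrt_le_sqrt h3
      _ = d := Real.sqrt_sq (by positivity)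
  rw [nrm_eq_norm, h1]
  calc ‖h⁻¹ • (x - y) - w‖ ≤ ‖h⁻¹ • (x - y)‖ + ‖w‖ := norm_sub_le _ _
    _ ≤ ‖x - y‖ / h + d := by
        rw [norm_smul, norm_inv, Real.norm_eq_abs, abs_of_pos hh]
        have : h⁻¹ * ‖x - y‖ = ‖x - y‖ / h := by field_simp
        linarith

theorem lce : T_LCE := by
  intro d q D S h r N _ hh hr
  filter_upwards [ae_fin S h, S.fam, S.part] with ω hfin hfam hpart X hX
  -- uniqueness of families
  have huniq : ∀ F ∈ S.M ω, ∀ F' ∈ S.M ω, ∀ x, x ∈ F → x ∈ F' → F = F' := by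
    intro F hF F' hF' x hx hx'
    obtain ⟨i, hi⟩ := (hfam F hF).2.2 x hx
    exact (hpart i x hi).unique ⟨hF, hx⟩ ⟨hF', hx'⟩
  -- families that meet the cells of `X`
  set 𝓕 : Set (Finset (Sp d)) := {F | F ∈ S.M ω ∧ ∃ x ∈ F, cel h x ∈ X} with h𝓕
  have hZ : (⋃ p ∈ (X ×ˢ (Finset.univ : Finset (Fin q)) : Finset (CC d q)),
      (S.Pi p.2 ω ∩ hcell h p.1)).Finite :=
    Set.Finite.biUnion (Finset.finite_toSet _) fun p _ => hfin p
  set g : Sp d → Finset (Sp d) := fun x => if hx : ∃ F, F ∈ S.M ω ∧ x ∈ F then hx.choose else ∅ with hg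
  have hFfin : 𝓕.Finite := by
    refine (hZ.image g).subset ?_
    rintro F ⟨hF, x, hx, hxX⟩
    obtain ⟨i, hi⟩ := (hfam F hF).2.2 x hx
    refine ⟨x, ?_, ?_⟩
    · simp only [Set.mem_iUnion]
      exact ⟨(cel h x, i), Finset.mem_product.2 ⟨hxX, Finset.mem_univ _⟩, hi, (mem_hcell hh x _).2 rfl⟩
    · have hex : ∃ F, F ∈ S.M ω ∧ x ∈ F := ⟨F, hF, hx⟩
      simp only [hg, dif_pos hex]
      exact huniq _ hex.choose_spec.1 _ hF x hex.choose_spec.2 hx
  set Fs : Finset (Finset (Sp d)) := hFfin.toFinset with hFs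
  have hmem : ∀ F, F ∈ Fs ↔ F ∈ S.M ω ∧ ∃ x ∈ F, cel h x ∈ X := by
    intro F
    rw [hFs, Set.Finite.mem_toFinset]
    rfl
  set U : Finset (Sp d) → Pat d q := pat (fun i => S.Pi i ω) h with hU
  have hUapp : ∀ F p, U F p = (((hfin p).toFinset).filter (fun x => x ∈ F)).card := by
    intro F p
    rw [hU, pat_apply]
    congr 1
    ext x
    simp only [Finset.mem_filter, Set.Finite.mem_toFinset, Set.mem_inter_iff, mem_hcell hh]
    tauto
  have hsupp : ∀ F ∈ S.M ω, ∀ x ∈ F, ∃ i, (cel h x, i) ∈ (U F).support := by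
    intro F hF x hx
    obtain ⟨i, hi⟩ := (hfam F hF).2.2 x hx
    refine ⟨i, ?_⟩
    rw [Finsupp.mem_support_iff, hU, pat_apply]
    apply Finset.card_ne_zero_of_mem (a := x)
    rw [Finset.mem_filter]
    exact ⟨hx, hi, rfl⟩
  have hsupp' : ∀ F, ∀ p ∈ (U F).support, ∃ x ∈ F, cel h x = p.1 := by
    intro F p hp
    rw [Finsupp.mem_support_iff, hU, pat_apply] at hp
    obtain ⟨x, hx⟩ := Finset.card_ne_zero.1 hp
    simp only [Finset.mem_filter] at hx
    exact ⟨x, hx.1, hx.2.2⟩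
  have hsum : ∀ p, (Fs.val.map U).sum p = ∑ F ∈ Fs, U F p := by
    intro p
    change (∑ F ∈ Fs, U F) p = _
    rw [Finsupp.finsetSum_apply]
  have hcard : ∀ p, ∑ F ∈ Fs, U F p = (Fs.biUnion (fun F => ((hfin p).toFinset).filter (fun x => x ∈ F))).card := by
    intro p
    rw [Finset.card_biUnion]
    · exact Finset.sum_congr rfl fun F _ => hUapp F p
    · intro F hF F' hF' hne
      rw [Function.onFun, Finset.disjoint_left]
      intro x hx hx'
      simp only [Finset.mem_filter] at hx hx'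
      exact hne (huniq F ((hmem F).1 hF).1 F' ((hmem F').1 hF').1 x hx.2 hx'.2)
  have hNc : ∀ p : CC d q, S.Nc h ω p = ((hfin p).toFinset).card := by
    intro p
    rw [Scheme.Nc, Set.ncard_eq_toFinset_card _ (hfin p)]
  refine ⟨Fs.val.map U, ?_, ?_, ?_⟩
  · intro u hu
    obtain ⟨F, hF, rfl⟩ := Multiset.mem_map.1 hu
    have hF' : F ∈ Fs := hF
    obtain ⟨hFM, y, hy, hyX⟩ := (hmem F).1 hF'
    obtain ⟨j, hj⟩ := hsupp F hFM y hy
    refine ⟨⟨?_, ?_, ?_⟩, ⟨_, hj, hyX⟩⟩
    · intro h0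
      rw [h0] at hj
      simp at hj
    · rw [hU, pat_tot]
      exact (hfam F hFM).2.1
    · intro p hp p' hp'
      obtain ⟨x, hx, hxp⟩ := hsupp' F p hp
      obtain ⟨x', hx', hxp'⟩ := hsupp' F p' hp'
      rw [← hxp, ← hxp']
      have h1 : ‖x - x'‖ ≤ fdiam F := by
        rw [← dist_eq_norm]
        exact Metric.dist_le_diam_of_mem F.finite_toSet.isBounded (Finset.mem_coe.2 hx) (Finset.mem_coe.2 hx')
      have h2 : fdiam F ≤ r := hX _ hyX y ((mem_hcell hh y _).2 rfl) F hFM hy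
      have h3 := nrm_cel hh x x'
      have h4 : ‖x - x'‖ / h ≤ (N : ℝ) - d := by
        rw [div_le_iff₀ hh]
        linarith
      linarith
  · intro p
    rw [hsum, hcard, hNc]
    apply Finset.card_le_card
    intro x hx
    simp only [Finset.mem_biUnion, Finset.mem_filter] at hx
    obtain ⟨F, -, hx, -⟩ := hx
    exact hx
  · intro p hp
    rw [hsum, hcard, hNc]
    congr 1
    ext x
    simp only [Finset.mem_biUnion, Finset.mem_filter]
    constructor
    · rintro ⟨F, -, hx, -⟩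
      exact hx
    · intro hx
      have hx2 : x ∈ S.Pi p.2 ω ∩ hcell h p.1 := (Set.Finite.mem_toFinset _).1 hx
      obtain ⟨F, ⟨hF, hxF⟩, -⟩ := hpart p.2 x hx2.1
      refine ⟨F, ?_, hx, hxF⟩
      rw [hmem]
      refine ⟨hF, x, hxF, ?_⟩
      rw [(mem_hcell hh x _).1 hx2.2]
      exact hp

end

end Pool.Agent.H74.MC
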