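import Pool.Agent.H89.MC.Targets

namespace Pool.Agent.H74.MC

open MeasureTheory ProbabilityTheory Pool.Agent.H96.MC

noncomputable section

theorem inf_prod {ι : Type*} {X Y : Type*} [MeasurableSpace X] [MeasurableSpace Y]
    (μ : ι → Measure X) (ν : ι → Measure Y) [∀ i, IsProbabilityMeasure (μ i)]
    [∀ i, IsProbabilityMeasure (ν i)] :
    ((Measure.infinitePi μ).prod (Measure.infinitePi ν)).map (fun w i => (w.1 i, w.2 i)) =
      Measure.infinitePi fun i => (μ i).prod (ν i) := by
  classical
  have hm : Measurable (fun (w : (ι → X) × (ι → Y)) (i : ι) => (w.1 i, w.2 i)) := by fun_prop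
  symm
  refine (Measure.isProjectiveLimit_infinitePi _).unique ?_
  intro s
  symm
  refine Measure.pi_eq_generateFrom
    (C := fun _ => Set.image2 (· ×ˢ ·) {s : Set X | MeasurableSet s} {t : Set Y | MeasurableSet t})
    (fun _ => generateFrom_prod) (fun _ => isPiSystem_prod)
    (fun _ => ⟨fun _ => Set.univ, fun _ => ⟨Set.univ, MeasurableSet.univ, Set.univ, MeasurableSet.univ,
      Set.univ_prod_univ⟩, fun _ => measure_lt_top _ _, Set.iUnion_const _⟩) ?_
  intro R hR
  choose A hA B hB hAB using hR
  simp only [Set.mem_setOf_eq] at hA hB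
  have hRm : ∀ i, MeasurableSet (R i) := fun i => by
    rw [← hAB i]; exact (hA i).prod (hB i)
  let A' : ι → Set X := fun i => if h : i ∈ s then A ⟨i, h⟩ else Set.univ
  let B' : ι → Set Y := fun i => if h : i ∈ s then B ⟨i, h⟩ else Set.univ
  have hA' : ∀ i, MeasurableSet (A' i) := by
    intro i
    by_cases h : i ∈ s
    · simp only [A', h, dif_pos]; exact hA _
    · simp only [A', h, dif_neg, not_false_eq_true]; exact MeasurableSet.univ
  have hB' : ∀ i, MeasurableSet (B' i) := by
    intro i
    by_cases h : i ∈ s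
    · simp only [B', h, dif_pos]; exact hB _
    · simp only [B', h, dif_neg, not_false_eq_true]; exact MeasurableSet.univ
  rw [Measure.map_apply (by fun_prop) (MeasurableSet.univ_pi hRm),
    Measure.map_apply hm ((by fun_prop : Measurable (Finset.restrict (π := fun _ => X × Y) s))
      (MeasurableSet.univ_pi hRm))]
  have e : (fun (w : (ι → X) × (ι → Y)) (i : ι) => (w.1 i, w.2 i)) ⁻¹'
      (s.restrict ⁻¹' Set.pi Set.univ R) = (Set.pi s A') ×ˢ (Set.pi s B') := by
    ext w
    simp only [Set.mem_preimage, Set.mem_pi, Set.mem_univ, forall_true_left, Finset.restrict,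
      Set.mem_prod, Finset.mem_coe]
    constructor
    · intro h
      refine ⟨fun i hi => ?_, fun i hi => ?_⟩
      · have := h ⟨i, hi⟩
        rw [← hAB] at this
        simp only [A', hi, dif_pos]
        exact this.1
      · have := h ⟨i, hi⟩
        rw [← hAB] at this
        simp only [B', hi, dif_pos]
        exact this.2
    · rintro ⟨h1, h2⟩ ⟨i, hi⟩
      rw [← hAB]
      have h1 := h1 i hi
      have h2 := h2 i hi
      simp only [A', hi, dif_pos] at h1
      simp only [B', hi, dif_pos] at h2
      exact ⟨h1, h2⟩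
  rw [e, Measure.prod_prod, Measure.infinitePi_pi _ (fun i _ => hA' i),
    Measure.infinitePi_pi _ (fun i _ => hB' i), ← Finset.prod_mul_distrib, ← Finset.prod_coe_sort]
  refine Finset.prod_congr rfl fun i _ => ?_
  rw [← hAB i, Measure.prod_prod]
  simp only [A', B', i.2, dif_pos]

theorem prob_unif (d : ℕ) : IsProbabilityMeasure (unif d) := by
  constructor
  rw [unif, Measure.restrict_apply MeasurableSet.univ, Set.univ_inter, Real.volume_pi_Ico]
  simp

theorem rgp : T_RGP := by
  intro d q D
  have := prob_unif d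
  have hp : ∀ x : CC d q, IsProbabilityMeasure (poissonMeasure (⟨D.lam x.2, (D.pos x.2).le⟩ : NNReal)) :=
    by
      have h1 : ∀ s : NNReal, IsProbabilityMeasure (poissonMeasure s) := fun s => inferInstance
      exact fun x => h1 ⟨_, _⟩
  rw [← inf_prod (fun x : CC d q => poissonMeasure (⟨D.lam x.2, (D.pos x.2).le⟩ : NNReal))
    (fun _ : CC d q => Measure.infinitePi fun _ : ℕ => unif d)]
  rw [← Measure.infinitePi_map_curry (fun (_ : CC d q) (_ : ℕ) => unif d)]
  have h := (Measure.map_prod_map (Measure.infinitePi (fun x : CC d q => poissonMeasure (⟨D.lam x.2, (D.pos x.2).le⟩ : NNReal)))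
    (Measure.infinitePi fun _ : CC d q × ℕ => unif d) (measurable_id)
    (MeasurableEquiv.curry (CC d q) ℕ (Fin d → ℝ)).measurable)
  rw [Measure.map_id] at h
  rw [h, Measure.map_map (by fun_prop) (by fun_prop)]
  rfl

end

end Pool.Agent.H74.MC
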